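import Pool.Agent.W633.LT.Stm

/-!
# The effect of a twist on the invariants of an operator family
-/

set_option autoImplicit false

namespace W64.LG

open W633.LT

/-- the index is invariant under isomorphisms -/
theorem ind_equiv {k : Type} [Field k] {V W V' W' : Type} [AddCommGroup V] [Module k V]
    [AddCommGroup W] [Module k W] [AddCommGroup V'] [Module k V'] [AddCommGroup W'] [Module k W']
    (f : V →ₗ[k] W) (g : V' →ₗ[k] W') (e₁ : V ≃ₗ[k] V') (e₂ : W ≃ₗ[k] W')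
    (h : ∀ v, g (e₁ v) = e₂ (f v)) : ind g = ind f := by
  unfold ind
  have h1 : Module.finrank k (LinearMap.ker g) = Module.finrank k (LinearMap.ker f) := by
    have h4 : (LinearMap.ker f).map (e₁ : V →ₗ[k] V') = LinearMap.ker g := by
      ext v'
      constructor
      · rintro ⟨v, hv, rfl⟩
        rw [LinearMap.mem_ker]
        show g (e₁ v) = 0
        rw [h, LinearMap.mem_ker.1 hv, map_zero]
      · intro hv
        refine ⟨e₁.symm v', ?_, e₁.apply_symm_apply v'⟩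
        apply LinearMap.mem_ker.2
        apply e₂.injective
        rw [← h, e₁.apply_symm_apply, map_zero]
        exact hv
    rw [← h4]
    exact LinearEquiv.finrank_map_eq e₁ _
  have h2 : Module.finrank k (W' ⧸ LinearMap.range g) =
      Module.finrank k (W ⧸ LinearMap.range f) := by
    have h3 : (LinearMap.range f).map (e₂ : W →ₗ[k] W') = LinearMap.range g := by
      ext w'
      constructor
      · rintro ⟨_, ⟨v, rfl⟩, rfl⟩
        exact ⟨e₁ v, h v⟩
      · rintro ⟨v', rfl⟩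
        refine ⟨f (e₁.symm v'), ⟨_, rfl⟩, ?_⟩
        show e₂ _ = _
        rw [← h, e₁.apply_symm_apply]
    exact (LinearEquiv.finrank_eq (Submodule.Quotient.equiv _ _ e₂ h3)).symm
  rw [h1, h2]

/-- the index of Cech differentials of quotients -/
theorem ind_cech {k : Type} [Field k] {V1 V2 V0 V1' V2' V0' : Type}
    [AddCommGroup V1] [Module k V1] [AddCommGroup V2] [Module k V2]
    [AddCommGroup V0] [Module k V0] [AddCommGroup V1'] [Module k V1']
    [AddCommGroup V2'] [Module k V2'] [AddCommGroup V0'] [Module k V0']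
    (P1 : Submodule k V1) (P2 : Submodule k V2) (P0 : Submodule k V0)
    (P1' : Submodule k V1') (P2' : Submodule k V2') (P0' : Submodule k V0')
    (r1 : V1 →ₗ[k] V0) (r2 : V2 →ₗ[k] V0) (s : V0 →ₗ[k] V0)
    (h1 : P1 ≤ P0.comap r1) (h2 : P2 ≤ P0.comap r2) (h3 : P0 ≤ P0.comap s)
    (r1' : V1' →ₗ[k] V0') (r2' : V2' →ₗ[k] V0') (s' : V0' →ₗ[k] V0')
    (h1' : P1' ≤ P0'.comap r1') (h2' : P2' ≤ P0'.comap r2') (h3' : P0' ≤ P0'.comap s')
    (e1 : V1 ≃ₗ[k] V1') (e2 : V2 ≃ₗ[k] V2') (e0 : V0 ≃ₗ[k] V0')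
    (m1 : P1.map (e1 : V1 →ₗ[k] V1') = P1') (m2 : P2.map (e2 : V2 →ₗ[k] V2') = P2')
    (m0 : P0.map (e0 : V0 →ₗ[k] V0') = P0')
    (c1 : ∀ x, r1' (e1 x) = e0 (r1 x)) (c2 : ∀ x, r2' (e2 x) = e0 (r2 x))
    (c3 : ∀ x, s' (e0 x) = e0 (s x)) :
    ind (P1'.mapQ P0' r1' h1' ∘ₗ LinearMap.fst k (V1' ⧸ P1') (V2' ⧸ P2') -
      P0'.mapQ P0' s' h3' ∘ₗ P2'.mapQ P0' r2' h2' ∘ₗ LinearMap.snd k (V1' ⧸ P1') (V2' ⧸ P2')) =
    ind (P1.mapQ P0 r1 h1 ∘ₗ LinearMap.fst k (V1 ⧸ P1) (V2 ⧸ P2) -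
      P0.mapQ P0 s h3 ∘ₗ P2.mapQ P0 r2 h2 ∘ₗ LinearMap.snd k (V1 ⧸ P1) (V2 ⧸ P2)) := by
  apply ind_equiv _ _
    (LinearEquiv.prodCongr (Submodule.Quotient.equiv P1 P1' e1 m1)
      (Submodule.Quotient.equiv P2 P2' e2 m2)) (Submodule.Quotient.equiv P0 P0' e0 m0)
  rintro ⟨x, y⟩
  obtain ⟨x, rfl⟩ := Submodule.Quotient.mk_surjective _ x
  obtain ⟨y, rfl⟩ := Submodule.Quotient.mk_surjective _ y
  show (Submodule.Quotient.mk (r1' (e1 x)) - Submodule.Quotient.mk (s' (r2' (e2 y))) : V0' ⧸ P0') =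
    (Submodule.Quotient.mk (e0 (r1 x - s (r2 y))) : V0' ⧸ P0')
  rw [c1, c2, c3, map_sub, Submodule.Quotient.mk_sub]

/-- multiplication by `t ^ n` on the chart `(b, 0)` -/
def actE {k : Type} [Field k] (N : Fam k) (b : SignType) (n : ℤ) : N.V b 0 ≃ₗ[k] N.V b 0 :=
  LinearEquiv.ofLinearMap (N.act b 0 0 n) (N.act b 0 0 (-n))
    (by
      ext v
      show N.act b 0 0 n (N.act b 0 0 (-n) v) = v
      rw [← N.act_add b 0 0 n 0 (-n) (by simp) (by simp) (by simp) (by simp)]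
      simp [N.act_zero])
    (by
      ext v
      show N.act b 0 0 (-n) (N.act b 0 0 n v) = v
      rw [← N.act_add b 0 0 (-n) 0 n (by simp) (by simp) (by simp) (by simp)]
      simp [N.act_zero])

theorem twi (hS : FamStab) : FamTwist := by
  intro k _ N N' ep em hN hN' hT
  obtain ⟨φ, p1, p2, p3, p4⟩ := hT
  -- degrees
  have hdeg : ∀ c, N'.deg c = N.deg c := by
    intro c
    have hL : ∀ b : SignType, (N.subL b c).map (φ b c : N.V b c →ₗ[k] N'.V b c) = N'.subL b c := by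
      intro b
      ext w
      constructor
      · rintro ⟨_, ⟨v, rfl⟩, rfl⟩
        refine ⟨φ b c v, ?_⟩
        exact (p1 b c 0 c v (by simp) (Fam.sgn_nonneg c)).symm
      · rintro ⟨v', rfl⟩
        refine ⟨N.act b c 0 c ((φ b c).symm v'), ⟨_, rfl⟩, ?_⟩
        show φ b c _ = _
        rw [p1 b c 0 c _ (by simp) (Fam.sgn_nonneg c), LinearEquiv.apply_symm_apply]
    exact ind_cech _ _ _ _ _ _ _ _ _ (N.subL_res 1 c) (N.subL_res (-1) c)
      (N.subL_act 0 c (-1) (by simp)) _ _ _ (N'.subL_res 1 c) (N'.subL_res (-1) c)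
      (N'.subL_act 0 c (-1) (by simp)) (φ 1 c) (φ (-1) c) (φ 0 c) (hL 1) (hL (-1)) (hL 0)
      (fun x => p2 (Sub.zero 1) c x) (fun x => p2 (Sub.zero (-1)) c x)
      (fun x => (p1 0 c (-1) 0 x (by simp) (by simp)).symm)
  -- the sheaf `H`
  have hH : ∀ q : ℤ, ind (N'.DH 0 q) = ind (N.DH 0 (q - (em - ep))) := by
    intro q
    have hmap : ∀ b : SignType, (N.sub b 0 (q - (em - ep))).map
        (((actE N b ep).trans (φ b 0) : N.V b 0 ≃ₗ[k] N'.V b 0) : N.V b 0 →ₗ[k] N'.V b 0) =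
        N'.sub b 0 q := by
      intro b
      unfold Fam.sub
      rw [Submodule.map_sup]
      congr 1
      · ext w
        constructor
        · rintro ⟨_, ⟨_, ⟨v, rfl⟩, rfl⟩, rfl⟩
          refine ⟨N'.res (Sub.refl b) (Sub.zero 1) (φ b 1 v), ⟨_, rfl⟩, ?_⟩
          show N'.act b 0 0 0 _ = φ b 0 (N.act b 0 0 ep (N.act b 0 0 0 _))
          rw [N'.act_zero, N.act_zero, p3, p1 b 0 0 ep _ (by simp) (by simp)]
        · rintro ⟨_, ⟨v', rfl⟩, rfl⟩
          refine ⟨N.act b 0 0 0 (N.res (Sub.refl b) (Sub.zero 1) ((φ b 1).symm v')),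
            ⟨_, ⟨_, rfl⟩, rfl⟩, ?_⟩
          show φ b 0 (N.act b 0 0 ep (N.act b 0 0 0 _)) = N'.act b 0 0 0 _
          have h5 := p3 (Sub.refl b) ((φ b 1).symm v')
          rw [LinearEquiv.apply_symm_apply] at h5
          rw [N'.act_zero, N.act_zero, h5, p1 b 0 0 ep _ (by simp) (by simp)]
      · ext w
        constructor
        · rintro ⟨_, ⟨_, ⟨v, rfl⟩, rfl⟩, rfl⟩
          refine ⟨N'.res (Sub.refl b) (Sub.zero (-1)) (φ b (-1) v), ⟨_, rfl⟩, ?_⟩
          show N'.act b 0 0 (-q) _ = φ b 0 (N.act b 0 0 ep (N.act b 0 0 (-(q - (em - ep))) _))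
          rw [p4, ← N.act_add b 0 0 ep 0 (-(q - (em - ep))) (by simp) (by simp) (by simp) (by simp),
            ← N'.act_add b 0 0 (-q) 0 em (by simp) (by simp) (by simp) (by simp),
            p1 b 0 _ _ _ (by simp) (by simp)]
          congr 2
          ring
        · rintro ⟨_, ⟨v', rfl⟩, rfl⟩
          refine ⟨N.act b 0 0 (-(q - (em - ep)))
            (N.res (Sub.refl b) (Sub.zero (-1)) ((φ b (-1)).symm v')), ⟨_, ⟨_, rfl⟩, rfl⟩, ?_⟩
          show φ b 0 (N.act b 0 0 ep (N.act b 0 0 (-(q - (em - ep))) _)) = N'.act b 0 0 (-q) _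
          have h5 := p4 (Sub.refl b) ((φ b (-1)).symm v')
          rw [LinearEquiv.apply_symm_apply] at h5
          rw [h5, ← N.act_add b 0 0 ep 0 (-(q - (em - ep))) (by simp) (by simp) (by simp) (by simp),
            ← N'.act_add b 0 0 (-q) 0 em (by simp) (by simp) (by simp) (by simp),
            p1 b 0 _ _ _ (by simp) (by simp)]
          congr 2
          ring
    have hres : ∀ (b : SignType) (x : N.V b 0), N'.res (Sub.zero b) (Sub.refl 0)
        (((actE N b ep).trans (φ b 0)) x) =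
        ((actE N 0 ep).trans (φ 0 0)) (N.res (Sub.zero b) (Sub.refl 0) x) := by
      intro b x
      show N'.res (Sub.zero b) (Sub.refl 0) (φ b 0 (N.act b 0 0 ep x)) =
        φ 0 0 (N.act 0 0 0 ep (N.res (Sub.zero b) (Sub.refl 0) x))
      rw [p2, N.res_act _ _ 0 ep (by simp) (by simp)]
    exact ind_cech _ _ _ _ _ _ _ _ _ (N.sub_res 1 0 (q - (em - ep)))
      (N.sub_res (-1) 0 (q - (em - ep)))
      (N.sub_act 0 0 (q - (em - ep)) (-1) (by simp)) _ _ _ (N'.sub_res 1 0 q)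
      (N'.sub_res (-1) 0 q)
      (N'.sub_act 0 0 q (-1) (by simp)) ((actE N 1 ep).trans (φ 1 0))
      ((actE N (-1) ep).trans (φ (-1) 0)) ((actE N 0 ep).trans (φ 0 0)) (hmap 1) (hmap (-1))
      (hmap 0) (hres 1) (hres (-1))
      (fun x => by
        show N'.act 0 0 (-1) 0 (φ 0 0 (N.act 0 0 0 ep x)) =
          φ 0 0 (N.act 0 0 0 ep (N.act 0 0 (-1) 0 x))
        rw [← p1 0 0 (-1) 0 _ (by simp) (by simp),
          ← N.act_add 0 0 (-1) 0 0 ep (by simp) (by simp) (by simp) (by simp),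
          ← N.act_add 0 0 0 ep (-1) 0 (by simp) (by simp) (by simp) (by simp)]
        simp)
  refine ⟨?_, hdeg⟩
  obtain ⟨⟨q0, hq0⟩, -⟩ := hS k N hN
  obtain ⟨⟨q0', hq0'⟩, -⟩ := hS k N' hN'
  have hE : ∀ q : ℤ, N'.E q = N.E (q - (em - ep)) + (em - ep) * N.deg 1 := by
    intro q
    unfold Fam.E
    rw [hH q, hdeg 1]
    ring
  have h6 := hq0' (max q0' (q0 + (em - ep))) (le_max_left _ _)
  have h7 := hq0 (max q0' (q0 + (em - ep)) - (em - ep)) (by
    have := le_max_right q0' (q0 + (em - ep))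
    linarith)
  rw [← h6, hE, h7]

end W64.LG
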